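import Pool.Agent.H89.FLT.S

/-!
# MP_e1ba20 (compact flats): rows MON and MAC
-/

set_option autoImplicit false

open Matrix

namespace Pool.FLT

namespace MM

theorem gram_row {n : ℕ} (N : GR n) (x : aa n) (i j : Fin n) :
    ((((N * ee x : GR n) : Matrix (Fin n) (Fin n) ℝ)) *
      (((N * ee x : GR n) : Matrix (Fin n) (Fin n) ℝ))ᵀ) i j =
      ∑ k, (N : Matrix (Fin n) (Fin n) ℝ) i k * (N : Matrix (Fin n) (Fin n) ℝ) j k *
        Real.exp (2 * co x k) := by
  have h1 : ((N * ee x : GR n) : Matrix (Fin n) (Fin n) ℝ) =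
      (N : Matrix (Fin n) (Fin n) ℝ) * Matrix.diagonal (fun i => Real.exp (co x i)) := rfl
  rw [h1, Matrix.mul_apply]
  refine Finset.sum_congr rfl fun k _ => ?_
  rw [Matrix.transpose_apply, Matrix.mul_diagonal, Matrix.mul_diagonal]
  have h2 : Real.exp (2 * co x k) = Real.exp (co x k) * Real.exp (co x k) := by
    rw [← Real.exp_add]; congr 1; ring
  rw [h2]; ring

theorem gram {n : ℕ} (A k : GR n) (y : aa n) (hk : inK k) (h : A = ee y * k) :
    (A : Matrix (Fin n) (Fin n) ℝ) * (A : Matrix (Fin n) (Fin n) ℝ)ᵀ =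
      Matrix.diagonal fun i => Real.exp (2 * co y i) := by
  have h1 : (A : Matrix (Fin n) (Fin n) ℝ) =
      (Matrix.diagonal fun i => Real.exp (co y i)) * (k : Matrix (Fin n) (Fin n) ℝ) := by
    rw [h]; rfl
  have hk' : (k : Matrix (Fin n) (Fin n) ℝ) * (k : Matrix (Fin n) (Fin n) ℝ)ᵀ = 1 := hk
  rw [h1, Matrix.transpose_mul, Matrix.diagonal_transpose, Matrix.mul_assoc,
    ← Matrix.mul_assoc (k : Matrix (Fin n) (Fin n) ℝ), hk', Matrix.one_mul,
    Matrix.diagonal_mul_diagonal]
  congr 1
  funext i
  rw [← Real.exp_add]; congr 1; ring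

theorem ofGram {n : ℕ} (A : GR n) (y : aa n)
    (h : (A : Matrix (Fin n) (Fin n) ℝ) * (A : Matrix (Fin n) (Fin n) ℝ)ᵀ =
      Matrix.diagonal fun i => Real.exp (2 * co y i)) :
    ∃ k : GR n, inK k ∧ A = ee y * k := by
  have hinv : ee y * ee (-y) = 1 := by
    apply Subtype.ext
    have h1 : ((ee y * ee (-y) : GR n) : Matrix (Fin n) (Fin n) ℝ) =
      (Matrix.diagonal fun i => Real.exp (co y i)) * (Matrix.diagonal fun i => Real.exp (co (-y) i)) :=
      rfl
    rw [h1, Matrix.diagonal_mul_diagonal]
    have h2 : (fun i => Real.exp (co y i) * Real.exp (co (-y) i)) = fun _ => (1 : ℝ) := by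
      funext i
      rw [← Real.exp_add]
      have : co (-y) i = - co y i := rfl
      rw [this, add_neg_cancel, Real.exp_zero]
    rw [h2]
    exact Matrix.diagonal_one
  refine ⟨ee (-y) * A, ?_, ?_⟩
  · have h1 : ((ee (-y) * A : GR n) : Matrix (Fin n) (Fin n) ℝ) =
      (Matrix.diagonal fun i => Real.exp (co (-y) i)) * (A : Matrix (Fin n) (Fin n) ℝ) := rfl
    unfold inK
    rw [h1, Matrix.transpose_mul, Matrix.diagonal_transpose, Matrix.mul_assoc,
      ← Matrix.mul_assoc (A : Matrix (Fin n) (Fin n) ℝ), h, Matrix.diagonal_mul_diagonal,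
      Matrix.diagonal_mul_diagonal]
    have h2 : (fun i => Real.exp (co (-y) i) * (Real.exp (2 * co y i) * Real.exp (co (-y) i))) =
        fun _ => (1 : ℝ) := by
      funext i
      rw [← Real.exp_add, ← Real.exp_add]
      have : co (-y) i = - co y i := rfl
      rw [this]
      have h3 : - co y i + (2 * co y i + - co y i) = 0 := by ring
      rw [h3, Real.exp_zero]
    rw [h2]
    exact Matrix.diagonal_one
  · rw [← mul_assoc, hinv, one_mul]

end MM

/-- row MON -/
theorem mon (hNUL : NULStmt) : MONStmt := by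
  intro n hn N hN
  unfold Mono at hN
  push Not at hN
  obtain ⟨i, j, k, hij, hne⟩ := hN
  set c : Fin n → ℝ := fun k => (N : Matrix (Fin n) (Fin n) ℝ) i k *
    (N : Matrix (Fin n) (Fin n) ℝ) j k with hc
  have hc0 : c ≠ 0 := by
    intro h
    apply hne
    have := congrFun h k
    simpa [hc] using this
  refine MeasureTheory.measure_mono_null ?_ (hNUL n hn c hc0)
  rintro x ⟨y, q, hq, hx⟩
  have h1 := MM.gram (N * ee x) q y hq hx
  have h2 := MM.gram_row N x i j
  rw [h1, Matrix.diagonal_apply_ne _ hij] at h2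
  exact h2.symm

/-- row MAC -/
theorem mac : MACStmt := by
  intro n M hM
  set A : Matrix (Fin n) (Fin n) ℝ := (M : Matrix (Fin n) (Fin n) ℝ) with hA
  have hdet : A.det = 1 := M.2
  have hcol : ∀ k, ∃ i, A i k ≠ 0 := by
    intro k
    by_contra hcon
    push Not at hcon
    have := Matrix.det_eq_zero_of_column_eq_zero k hcon
    rw [hdet] at this
    exact one_ne_zero this
  have hrow : ∀ i, ∃ k, A i k ≠ 0 := by
    intro i
    by_contra hcon
    push Not at hcon
    have := Matrix.det_eq_zero_of_row_eq_zero i hcon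
    rw [hdet] at this
    exact one_ne_zero this
  choose f hf using hcol
  have huniq : ∀ i k, A i k ≠ 0 → i = f k := by
    intro i k h
    by_contra hne
    have := hM i (f k) k hne
    rcases mul_eq_zero.mp this with h1 | h1
    · exact h h1
    · exact hf k h1
  have hsurj : Function.Surjective f := by
    intro i
    obtain ⟨k, hk⟩ := hrow i
    exact ⟨k, (huniq i k hk).symm⟩
  have hbij : Function.Bijective f := Finite.surjective_iff_bijective.mp hsurj
  set σ : Equiv.Perm (Fin n) := Equiv.ofBijective f hbij with hσ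
  have hσf : ∀ k, σ k = f k := fun k => rfl
  have hfs : ∀ i, f (σ.symm i) = i := fun i => by rw [← hσf, Equiv.apply_symm_apply]
  set d : Fin n → ℝ := fun k => A (f k) k with hd
  have hd0 : ∀ k, d k ≠ 0 := hf
  have hAe : ∀ i k, A i k = if k = σ.symm i then d k else 0 := by
    intro i k
    by_cases h : k = σ.symm i
    · rw [if_pos h]
      have : f k = i := by rw [h, hfs]
      simp only [hd, this]
    · rw [if_neg h]
      by_contra h0
      apply h
      rw [Equiv.eq_symm_apply, hσf]
      exact (huniq i k h0).symm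
  -- the Gram matrix
  have hgram : ∀ x : aa n, (((M * ee x : GR n) : Matrix (Fin n) (Fin n) ℝ)) *
      (((M * ee x : GR n) : Matrix (Fin n) (Fin n) ℝ))ᵀ =
      Matrix.diagonal fun i => d (σ.symm i) ^ 2 * Real.exp (2 * co x (σ.symm i)) := by
    intro x
    ext i j
    rw [MM.gram_row]
    by_cases hij : i = j
    · subst hij
      rw [Matrix.diagonal_apply_eq, Finset.sum_eq_single (σ.symm i)]
      · rw [← hA, hAe, if_pos rfl]; ring
      · intro k _ hk
        rw [← hA, hAe, if_neg hk]; ring
      · intro h; exact absurd (Finset.mem_univ _) h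
    · rw [Matrix.diagonal_apply_ne _ hij]
      refine Finset.sum_eq_zero fun k _ => ?_
      rw [← hA, hM i j k hij, zero_mul]
  have hAA : A * Aᵀ = Matrix.diagonal fun i => d (σ.symm i) ^ 2 := by
    have h1 := hgram 0
    have h2 : ((M * ee (0 : aa n) : GR n)) = M := by
      have : ee (0 : aa n) = 1 := by
        apply Subtype.ext
        have h3 : ((ee (0 : aa n) : GR n) : Matrix (Fin n) (Fin n) ℝ) =
          (Matrix.diagonal fun i => Real.exp (co (0 : aa n) i)) := rfl
        rw [h3]
        have h4 : (fun i => Real.exp (co (0 : aa n) i)) = fun _ => (1 : ℝ) := by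
          funext i
          have : co (0 : aa n) i = 0 := rfl
          rw [this, Real.exp_zero]
        rw [h4]
        exact Matrix.diagonal_one
      rw [this, mul_one]
    rw [h2] at h1
    rw [h1]
    congr 1
    funext i
    have : co (0 : aa n) (σ.symm i) = 0 := rfl
    rw [this, mul_zero, Real.exp_zero, mul_one]
  have hprod : ∏ i, d (σ.symm i) ^ 2 = 1 := by
    have h1 := congrArg Matrix.det hAA
    rw [Matrix.det_mul, Matrix.det_transpose, hdet, Matrix.det_diagonal, one_mul] at h1
    exact h1.symm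
  have hsum : ∑ i, Real.log |d (σ.symm i)| = 0 := by
    have h1 : ∑ i, Real.log (d (σ.symm i) ^ 2) = 0 := by
      rw [← Real.log_prod (fun i _ => pow_ne_zero 2 (hd0 _)), hprod, Real.log_one]
    have h2 : ∀ i, Real.log (d (σ.symm i) ^ 2) = 2 * Real.log |d (σ.symm i)| := by
      intro i
      rw [← sq_abs, Real.log_pow]; norm_num
    simp only [h2, ← Finset.mul_sum] at h1
    linarith
  set t : aa n := ⟨WithLp.toLp 2 fun i => Real.log |d (σ.symm i)|, hsum⟩ with ht
  have hco : ∀ (x : aa n) (i : Fin n), co (pm σ x + t) i = co x (σ.symm i) +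
      Real.log |d (σ.symm i)| := fun x i => rfl
  have hgram2 : ∀ x : aa n, (((M * ee x : GR n) : Matrix (Fin n) (Fin n) ℝ)) *
      (((M * ee x : GR n) : Matrix (Fin n) (Fin n) ℝ))ᵀ =
      Matrix.diagonal fun i => Real.exp (2 * co (pm σ x + t) i) := by
    intro x
    rw [hgram x]
    congr 1
    funext i
    rw [hco]
    have h1 : 2 * (co x (σ.symm i) + Real.log |d (σ.symm i)|) =
      (Real.log |d (σ.symm i)| + Real.log |d (σ.symm i)|) + 2 * co x (σ.symm i) := by ring
    rw [h1, Real.exp_add, Real.exp_add, Real.exp_log (abs_pos.mpr (hd0 _)), ← sq, sq_abs]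
  refine ⟨σ, t, ?_, ?_, ?_⟩
  · intro x
    exact MM.ofGram (M * ee x) (pm σ x + t) (hgram2 x)
  · intro x y k hk h
    have h1 := MM.gram (M * ee x) k y hk h
    rw [hgram2 x] at h1
    apply Subtype.ext
    ext i
    have h2 := congrFun (Matrix.diagonal_injective h1) i
    have h3 := Real.exp_injective h2
    have h4 : co (pm σ x + t) i = co y i := by linarith
    exact h4.symm
  · intro e
    ext i k
    rw [Matrix.mul_diagonal, Matrix.diagonal_mul, hAe]
    by_cases h : k = σ.symm i
    · rw [if_pos h, h]; ring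
    · rw [if_neg h]; ring

end Pool.FLT
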